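import Pool.Agent.N110.CC.GStm
import Pool.Agent.N110.NV.Cl
import Pool.Agent.Y172.Loc3

/-!
Project CC (helper110): base point free divisors are movable, and the classes of movable divisors are
pseudo-effective.
-/

set_option autoImplicit false

open FF Pool.Agent.W602.GT Pool.Agent.Y172 Pool.Agent.R887
open Pool.Agent.N110 Pool.Agent.N110.PA Pool.Agent.N110.NV Pool.Agent.N492.PA Pool.Agent.N110.CC

namespace Pool.Agent.N681.CC

section

variable {K : Type} [Field K] [Algebra ℂ K] {N ρ : ℕ} {y : Fin (N + 1) → K}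

/-- the class of an integral divisor and the class of the rational divisor -/
theorem divClass_eq (c : Place ℂ K → Fin ρ → ℤ) {D : Place ℂ K → ℤ}
    (hD : {P | IsPrimeDivisor y P ∧ D P ≠ 0}.Finite) :
    divClass y c D = toR (cls y (cQ c) (fun P => (D P : ℚ))) := by
  classical
  have h1 : cls y (cQ c) (fun P => (D P : ℚ)) = ∑ P ∈ hD.toFinset, (D P : ℚ) • cQ c P := by
    refine cls_finset (c := cQ c) (fun P hP => (hD.mem_toFinset.1 hP).1) fun P hP hPT => ?_
    by_contra h2
    exact hPT (hD.mem_toFinset.2 ⟨hP, fun h3 => h2 (by rw [h3, Int.cast_zero])⟩)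
  have h2 : divClass y c D = ∑ P ∈ hD.toFinset, (D P : ℝ) • rcl c P := by
    unfold divClass
    refine finsum_mem_eq_sum_of_inter_support_eq _ ?_
    ext P
    constructor
    · rintro ⟨hP, h0⟩
      refine ⟨?_, h0⟩
      rw [Finset.mem_coe, hD.mem_toFinset]
      refine ⟨hP, fun h3 => h0 ?_⟩
      change (D P : ℝ) • rcl c P = 0
      rw [h3, Int.cast_zero, zero_smul]
    · rintro ⟨hP, h0⟩
      rw [Finset.mem_coe, hD.mem_toFinset] at hP
      exact ⟨hP.1, h0⟩
  rw [h1, h2, toR_sum]
  refine Finset.sum_congr rfl fun P _ => ?_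
  rw [toR_smul]
  have h3 : toR (cQ c P) = rcl c P := by
    funext i
    simp [toR, cQ, rcl]
  rw [h3, Rat.cast_intCast]

end

/-- base point free divisors are movable, and movable divisors are effective -/
theorem leafPSEF : S_PSEF := by
  intro K _ _ N n ρ y hy hn h0 c hc hex D
  constructor
  · rintro ⟨hfin, hF⟩
    refine ⟨hfin, fun P hP => ?_⟩
    obtain ⟨f, hf, hs, hg⟩ := hF P (hP.divisorial hy hn)
    exact ⟨f, hf, hs, hg P hP fun g hg' => localRing_reg hg'⟩
  · rintro ⟨hfin, hM⟩
    obtain ⟨P0, hP0⟩ := hex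
    obtain ⟨f, hf, hs, -⟩ := hM P0 hP0
    apply subset_closure
    have hf1 : Fin0 y (fun P => (P.ord f : ℚ)) := by
      refine (finite_ord hy hf).subset ?_
      rintro P ⟨hP, h1⟩
      exact ⟨hP, fun h2 => h1 (by
        change (P.ord f : ℚ) = 0
        rw [h2, Int.cast_zero])⟩
    have hD1 : Fin0 y (fun P => (D P : ℚ)) := by
      refine hfin.subset ?_
      rintro P ⟨hP, h1⟩
      exact ⟨hP, fun h2 => h1 (by
        change (D P : ℚ) = 0
        rw [h2, Int.cast_zero])⟩
    have hE : Effective y (fun P => (P.ord f : ℚ) + (D P : ℚ)) := by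
      refine ⟨fun P hP => ?_, hf1.add hD1⟩
      have h3 := hs P hP
      have h4 : (0 : ℚ) ≤ (P.ord f : ℚ) + (D P : ℚ) := by exact_mod_cast h3
      exact h4
    have h1 := eff_mem (c := cQ c) hE
    rw [cls_add hf1 hD1] at h1
    have h2 : cls y (cQ c) (fun P => (P.ord f : ℚ)) = 0 := hc.principal f hf
    rw [h2, zero_add, ← divClass_eq c hfin] at h1
    exact h1

end Pool.Agent.N681.CC
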